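import Mathlib

set_option autoImplicit false
open MeasureTheory Set

namespace Pool.Agent.Helper34.Nt

/-- Abstract setting: `g` is integrable on bounded intervals and `h x` bounds the
average of `g` over every interval with `x` in its shadow. -/
structure Dat (α : ℝ) (g h : ℝ → ℝ) : Prop where
  int : ∀ a b : ℝ, IntervalIntegrable g volume a b
  bd : ∀ x c r : ℝ, 0 < r → |x - c| ≤ α * r → ∫ s in (c - r)..(c + r), g s ≤ 2 * r * h x

lemma ex_ge {g : ℝ → ℝ} (hi : ∀ a b : ℝ, IntervalIntegrable g volume a b) {a b : ℝ}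
    (hab : a < b) : ∃ z, a < z ∧ z < b ∧ ∫ s in a..b, g s ≤ g z * (b - a) := by
  have hI : IntegrableOn g (Ioo a b) volume := by
    have := (hi a b).1
    exact this.mono_set Ioo_subset_Ioc_self
  have h0 : volume (Ioo a b) ≠ 0 := by
    simp [hab]
  have h1 : volume (Ioo a b) ≠ ⊤ := by
    simp
  obtain ⟨z, hz, hle⟩ := exists_setAverage_le h0 h1 hI
  refine ⟨z, hz.1, hz.2, ?_⟩
  rw [setAverage_eq, smul_eq_mul] at hle
  have hv : volume.real (Ioo a b) = b - a := by
    simp [Measure.real, hab.le]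
  rw [hv] at hle
  rw [intervalIntegral.integral_of_le hab.le, integral_Ioc_eq_integral_Ioo]
  have hpos : 0 < b - a := by linarith
  have := mul_le_mul_of_nonneg_right hle hpos.le
  calc ∫ s in Ioo a b, g s = (b - a)⁻¹ * (∫ s in Ioo a b, g s) * (b - a) := by
        field_simp
    _ ≤ g z * (b - a) := this

lemma ex_le {g : ℝ → ℝ} (hi : ∀ a b : ℝ, IntervalIntegrable g volume a b) {a b : ℝ}
    (hab : a < b) : ∃ z, a < z ∧ z < b ∧ g z * (b - a) ≤ ∫ s in a..b, g s := by
  have hI : IntegrableOn g (Ioo a b) volume := by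
    have := (hi a b).1
    exact this.mono_set Ioo_subset_Ioc_self
  have h0 : volume (Ioo a b) ≠ 0 := by
    simp [hab]
  have h1 : volume (Ioo a b) ≠ ⊤ := by
    simp
  obtain ⟨z, hz, hle⟩ := exists_le_setAverage h0 h1 hI
  refine ⟨z, hz.1, hz.2, ?_⟩
  rw [setAverage_eq, smul_eq_mul] at hle
  have hv : volume.real (Ioo a b) = b - a := by
    simp [Measure.real, hab.le]
  rw [hv] at hle
  rw [intervalIntegral.integral_of_le hab.le, integral_Ioc_eq_integral_Ioo]
  have hpos : 0 < b - a := by linarith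
  have := mul_le_mul_of_nonneg_right hle hpos.le
  calc g z * (b - a) ≤ (b - a)⁻¹ * (∫ s in Ioo a b, g s) * (b - a) := this
    _ = ∫ s in Ioo a b, g s := by
        field_simp

/-- there is a point in `(a,b)` where `g ≥ F` as soon as the average is at least `F` -/
lemma ex_hi {g : ℝ → ℝ} (hi : ∀ a b : ℝ, IntervalIntegrable g volume a b) {a b F : ℝ}
    (hab : a < b) (hF : F * (b - a) ≤ ∫ s in a..b, g s) : ∃ z, a < z ∧ z < b ∧ F ≤ g z := by
  obtain ⟨z, h1, h2, h3⟩ := ex_ge hi hab
  refine ⟨z, h1, h2, ?_⟩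
  have hpos : 0 < b - a := by linarith
  exact le_of_mul_le_mul_right (hF.trans h3) hpos

lemma ex_lo {g : ℝ → ℝ} (hi : ∀ a b : ℝ, IntervalIntegrable g volume a b) {a b F : ℝ}
    (hab : a < b) (hF : ∫ s in a..b, g s ≤ F * (b - a)) : ∃ z, a < z ∧ z < b ∧ g z ≤ F := by
  obtain ⟨z, h1, h2, h3⟩ := ex_le hi hab
  refine ⟨z, h1, h2, ?_⟩
  have hpos : 0 < b - a := by linarith
  exact le_of_mul_le_mul_right (h3.trans hF) hpos

/-- reflection of the data -/
lemma Dat.refl {α : ℝ} {g h : ℝ → ℝ} (hD : Dat α g h) :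
    Dat α (fun x => g (-x)) (fun x => h (-x)) := by
  constructor
  · intro a b
    rw [IntervalIntegrable.iff_comp_neg]
    simpa using hD.int (-a) (-b)
  · intro x c r hr hx
    have h1 : ∫ s in (c - r)..(c + r), g (-s) = ∫ s in (-c - r)..(-c + r), g s := by
      rw [intervalIntegral.integral_comp_neg]
      congr 1 <;> ring
    rw [h1]
    apply hD.bd (-x) (-c) r hr
    have : -x - -c = -(x - c) := by ring
    rw [this, abs_neg]
    exact hx

section lemmas

variable {α : ℝ} {g h : ℝ → ℝ}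

/-- the part of `[c-r,c+r]` cut off by a right valley -/
lemma cutR (hD : Dat α g h) {c r F y δ : ℝ} (hP : ∫ s in (c - r)..(c + r), g s = 2 * r * F)
    (hδ : 0 < r - δ) (hy : |y - (c + δ)| ≤ α * (r - δ)) :
    2 * r * F - 2 * (r - δ) * h y ≤ ∫ s in (c - r)..(c - r + 2 * δ), g s := by
  have h1 := hD.bd y (c + δ) (r - δ) hδ hy
  have e1 : c + δ - (r - δ) = c - r + 2 * δ := by ring
  have e2 : c + δ + (r - δ) = c + r := by ring
  rw [e1, e2] at h1
  have h2 := intervalIntegral.integral_add_adjacent_intervals (hD.int (c - r) (c - r + 2 * δ))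
    (hD.int (c - r + 2 * δ) (c + r))
  linarith

/-- the part of `[c-r,c+r]` cut off by a left valley -/
lemma cutL (hD : Dat α g h) {c r F y δ : ℝ} (hP : ∫ s in (c - r)..(c + r), g s = 2 * r * F)
    (hδ : 0 < r - δ) (hy : |y - (c - δ)| ≤ α * (r - δ)) :
    2 * r * F - 2 * (r - δ) * h y ≤ ∫ s in (c + r - 2 * δ)..(c + r), g s := by
  have h1 := hD.bd y (c - δ) (r - δ) hδ hy
  have e1 : c - δ - (r - δ) = c - r := by ring
  have e2 : c - δ + (r - δ) = c + r - 2 * δ := by ring
  rw [e1, e2] at h1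
  have h2 := intervalIntegral.integral_add_adjacent_intervals (hD.int (c - r) (c + r - 2 * δ))
    (hD.int (c + r - 2 * δ) (c + r))
  linarith

/-- a valley is outside the shadow -/
lemma out_right (hD : Dat α g h) {c r F x y : ℝ} (hr : 0 < r)
    (hP : ∫ s in (c - r)..(c + r), g s = 2 * r * F) (hx : |x - c| ≤ α * r) (hxy : x < y)
    (hy : h y < F) : α * r < y - c := by
  by_contra hcon
  push Not at hcon
  have h1 : |y - c| ≤ α * r := by
    rw [abs_le] at hx ⊢
    constructor <;> linarith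
  have h2 := hD.bd y c r hr h1
  rw [hP] at h2
  have : 2 * r * h y < 2 * r * F := by
    apply mul_lt_mul_of_pos_left hy; linarith
  linarith

lemma out_left (hD : Dat α g h) {c r F x y : ℝ} (hr : 0 < r)
    (hP : ∫ s in (c - r)..(c + r), g s = 2 * r * F) (hx : |x - c| ≤ α * r) (hxy : y < x)
    (hy : h y < F) : α * r < c - y := by
  by_contra hcon
  push Not at hcon
  have h1 : |y - c| ≤ α * r := by
    rw [abs_le] at hx ⊢
    constructor <;> linarith
  have h2 := hD.bd y c r hr h1
  rw [hP] at h2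
  have : 2 * r * h y < 2 * r * F := by
    apply mul_lt_mul_of_pos_left hy; linarith
  linarith

/-- The left peak of an interval with a right valley `yp = c + p`, `p < r`. -/
lemma peakL (hD : Dat α g h) (h0 : 0 < α) (h1 : α < 1) {c r F yp : ℝ}
    (hP : ∫ s in (c - r)..(c + r), g s = 2 * r * F) (hyp : α * r < yp - c)
    (hpr : yp - c < r) (hm : h yp < F) :
    ∃ δ, 0 < δ ∧ c - r + 2 * δ < yp ∧ δ = (yp - c - α * r) / (1 - α) ∧
      F * (2 * δ) < ∫ s in (c - r)..(c - r + 2 * δ), g s := by
  have ha : 0 < 1 - α := by linarith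
  set δ := (yp - c - α * r) / (1 - α) with hδ
  have hδ' : δ * (1 - α) = yp - c - α * r := by rw [hδ]; field_simp
  have hδ0 : 0 < δ := by rw [hδ]; apply div_pos _ ha; linarith
  have hrd : 0 < r - δ := by
    have : (r - δ) * (1 - α) = r - (yp - c) := by linarith [hδ', (by ring : (r - δ) * (1 - α) = r - α * r - δ * (1 - α))]
    by_contra hcon
    push Not at hcon
    nlinarith
  have hin : |yp - (c + δ)| ≤ α * (r - δ) := by
    have : yp - (c + δ) = α * (r - δ) := by linarith [hδ', (by ring : δ * (1 - α) = δ - α * δ), (by ring : α * (r - δ) = α * r - α * δ)]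
    rw [this, abs_of_nonneg]
    positivity
  have h2 := cutR hD hP hrd hin
  refine ⟨δ, hδ0, ?_, rfl, ?_⟩
  · by_contra hcon
    push Not at hcon
    nlinarith
  · have : (r - δ) * h yp < (r - δ) * F := mul_lt_mul_of_pos_left hm hrd
    nlinarith

/-- The right peak of an interval with a left valley `ym = c - q`, `q < r`. -/
lemma peakR (hD : Dat α g h) (h0 : 0 < α) (h1 : α < 1) {c r F ym : ℝ}
    (hP : ∫ s in (c - r)..(c + r), g s = 2 * r * F) (hym : α * r < c - ym)
    (hqr : c - ym < r) (hm : h ym < F) :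
    ∃ δ, 0 < δ ∧ ym < c + r - 2 * δ ∧ δ = (c - ym - α * r) / (1 - α) ∧
      F * (2 * δ) < ∫ s in (c + r - 2 * δ)..(c + r), g s := by
  have ha : 0 < 1 - α := by linarith
  set δ := (c - ym - α * r) / (1 - α) with hδ
  have hδ' : δ * (1 - α) = c - ym - α * r := by rw [hδ]; field_simp
  have hδ0 : 0 < δ := by rw [hδ]; apply div_pos _ ha; linarith
  have hrd : 0 < r - δ := by
    have : (r - δ) * (1 - α) = r - (c - ym) := by linarith [hδ', (by ring : (r - δ) * (1 - α) = r - α * r - δ * (1 - α))]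
    by_contra hcon
    push Not at hcon
    nlinarith
  have hin : |ym - (c - δ)| ≤ α * (r - δ) := by
    have : ym - (c - δ) = -(α * (r - δ)) := by linarith [hδ', (by ring : δ * (1 - α) = δ - α * δ), (by ring : α * (r - δ) = α * r - α * δ)]
    rw [this, abs_neg, abs_of_nonneg]
    positivity
  have h2 := cutL hD hP hrd hin
  refine ⟨δ, hδ0, ?_, rfl, ?_⟩
  · by_contra hcon
    push Not at hcon
    nlinarith
  · have : (r - δ) * h ym < (r - δ) * F := mul_lt_mul_of_pos_left hm hrd
    nlinarith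

/-- A floating hump is short compared with its interval. -/
lemma float_len (hD : Dat α g h) (h0 : 0 < α) (h1 : α < 1) {c r F ym yp : ℝ} (hr : 0 < r)
    (hP : ∫ s in (c - r)..(c + r), g s = 2 * r * F) (hyp : α * r < yp - c) (hym : α * r < c - ym)
    (hmp : h yp < F) (hmm : h ym < F) (hfl : ∀ z, ym < z → z < yp → g z < F) :
    yp - ym < (1 - α) * r ∧ yp - c < r ∧ c - ym < r := by
  have ha : 0 < 1 - α := by linarith
  have hA : yp - c < r → c - ym < r := by
    intro hpr
    obtain ⟨δ, d0, d1, -, d3⟩ := peakL hD h0 h1 hP hyp hpr hmp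
    by_contra hcon
    push Not at hcon
    have hlt : c - r < c - r + 2 * δ := by linarith
    have h3 : F * (c - r + 2 * δ - (c - r)) ≤ ∫ s in (c - r)..(c - r + 2 * δ), g s := by
      have : c - r + 2 * δ - (c - r) = 2 * δ := by ring
      rw [this]; exact d3.le
    obtain ⟨z, z1, z2, z3⟩ := ex_hi hD.int hlt h3
    have := hfl z (by linarith) (by linarith)
    linarith
  have hB : c - ym < r → yp - c < r := by
    intro hqr
    obtain ⟨δ, d0, d1, -, d3⟩ := peakR hD h0 h1 hP hym hqr hmm
    by_contra hcon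
    push Not at hcon
    have hlt : c + r - 2 * δ < c + r := by linarith
    have h3 : F * (c + r - (c + r - 2 * δ)) ≤ ∫ s in (c + r - 2 * δ)..(c + r), g s := by
      have : c + r - (c + r - 2 * δ) = 2 * δ := by ring
      rw [this]; exact d3.le
    obtain ⟨z, z1, z2, z3⟩ := ex_hi hD.int hlt h3
    have := hfl z (by linarith) (by linarith)
    linarith
  have hC : yp - c < r := by
    by_contra hcon
    have hq : ¬ (c - ym < r) := fun hh => hcon (hB hh)
    push Not at hcon hq
    have hlt : c - r < c + r := by linarith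
    have h3 : F * (c + r - (c - r)) ≤ ∫ s in (c - r)..(c + r), g s := by
      rw [hP]; linarith
    obtain ⟨z, z1, z2, z3⟩ := ex_hi hD.int hlt h3
    have := hfl z (by linarith) (by linarith)
    linarith
  have hq := hA hC
  refine ⟨?_, hC, hq⟩
  by_contra hcon
  push Not at hcon
  obtain ⟨δ, d0, d1, d2, d3⟩ := peakL hD h0 h1 hP hyp hC hmp
  obtain ⟨ε, e0, e1, e2, e3⟩ := peakR hD h0 h1 hP hym hq hmm
  have d2' : δ * (1 - α) = yp - c - α * r := by rw [d2]; field_simp
  have e2' : ε * (1 - α) = c - ym - α * r := by rw [e2]; field_simp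
  rcases le_or_gt (δ + ε) r with hle | hgt
  · -- two complementary intervals
    -- maximal values
    have hb : 0 < 1 + α := by linarith
    set D := (yp - c + α * r) / (1 + α) with hD'
    set E := (c - ym + α * r) / (1 + α) with hE'
    have D2 : D * (1 + α) = yp - c + α * r := by rw [hD']; field_simp
    have E2 : E * (1 + α) = c - ym + α * r := by rw [hE']; field_simp
    have hDE : r ≤ D + E := by
      have : r * (1 + α) ≤ (D + E) * (1 + α) := by
        linarith
      exact le_of_mul_le_mul_right this hb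
    have h5 : 0 < (1 - α) * (1 + α) := by positivity
    have hδD : δ ≤ D := by
      have h6 : δ * ((1 - α) * (1 + α)) ≤ D * ((1 - α) * (1 + α)) := by
        have e1 : δ * ((1 - α) * (1 + α)) = (yp - c - α * r) * (1 + α) := by rw [← d2']; ring
        have e2 : D * ((1 - α) * (1 + α)) = (yp - c + α * r) * (1 - α) := by rw [← D2]; ring
        rw [e1, e2]
        have := mul_lt_mul_of_pos_left hC h0
        linarith
      exact le_of_mul_le_mul_right h6 h5
    have hεE : ε ≤ E := by
      have h6 : ε * ((1 - α) * (1 + α)) ≤ E * ((1 - α) * (1 + α)) := by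
        have e1 : ε * ((1 - α) * (1 + α)) = (c - ym - α * r) * (1 + α) := by rw [← e2']; ring
        have e2 : E * ((1 - α) * (1 + α)) = (c - ym + α * r) * (1 - α) := by rw [← E2]; ring
        rw [e1, e2]
        have := mul_lt_mul_of_pos_left hq h0
        linarith
      exact le_of_mul_le_mul_right h6 h5
    -- choose t between
    obtain ⟨t, t1, t2, t3, t4⟩ : ∃ t, δ ≤ t ∧ t ≤ D ∧ ε ≤ r - t ∧ r - t ≤ E := by
      refine ⟨max δ (r - E), le_max_left _ _, max_le hδD (by linarith), ?_, ?_⟩
      · have : max δ (r - E) ≤ r - ε := max_le (by linarith) (by linarith)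
        linarith
      · have : r - E ≤ max δ (r - E) := le_max_right _ _
        linarith
    clear_value D E
    have hrt : 0 < r - t := by linarith
    have ht : 0 < t := by linarith
    have u1 := mul_le_mul_of_nonneg_right t1 ha.le
    have u2 := mul_le_mul_of_nonneg_right t2 hb.le
    have u3 := mul_le_mul_of_nonneg_right t3 ha.le
    have u4 := mul_le_mul_of_nonneg_right t4 hb.le
    have i1 : |yp - (c + t)| ≤ α * (r - t) := by
      rw [abs_le]; constructor
      · linarith
      · linarith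
    have i2 : |ym - (c - (r - t))| ≤ α * (r - (r - t)) := by
      rw [abs_le]; constructor
      · linarith
      · linarith
    have k1 := cutR hD hP hrt i1
    have k2 := hD.bd ym (c - (r - t)) (r - (r - t)) (by linarith) i2
    have q1 : c - (r - t) - (r - (r - t)) = c - r := by ring
    have q2 : c - (r - t) + (r - (r - t)) = c - r + 2 * t := by ring
    rw [q1, q2] at k2
    have m1 : (r - t) * h yp < (r - t) * F := mul_lt_mul_of_pos_left hmp hrt
    have m2 : t * h ym < t * F := mul_lt_mul_of_pos_left hmm ht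
    have q3 : 2 * (r - (r - t)) * h ym = 2 * (t * h ym) := by ring
    rw [q3] at k2
    linarith
  · -- overlap
    have hlt : c + r - 2 * ε < c - r + 2 * δ := by linarith
    have s1 := intervalIntegral.integral_add_adjacent_intervals
      (hD.int (c - r) (c + r - 2 * ε)) (hD.int (c + r - 2 * ε) (c - r + 2 * δ))
    have s2 := intervalIntegral.integral_add_adjacent_intervals
      (hD.int (c - r) (c + r - 2 * ε)) (hD.int (c + r - 2 * ε) (c + r))
    have s3 := intervalIntegral.integral_add_adjacent_intervals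
      (hD.int (c - r) (c - r + 2 * δ)) (hD.int (c - r + 2 * δ) (c + r))
    have s4 := intervalIntegral.integral_add_adjacent_intervals
      (hD.int (c + r - 2 * ε) (c - r + 2 * δ)) (hD.int (c - r + 2 * δ) (c + r))
    have h3 : F * (c - r + 2 * δ - (c + r - 2 * ε)) ≤
        ∫ s in (c + r - 2 * ε)..(c - r + 2 * δ), g s := by
      linarith
    obtain ⟨z, z1, z2, z3⟩ := ex_hi hD.int hlt h3
    have := hfl z (by linarith) (by linarith)
    linarith

/-- The low point of a floating hump. -/
lemma float_low (hD : Dat α g h) (h0 : 0 < α) (h1 : α < 1) {c r F ym yp : ℝ} (hr : 0 < r)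
    (hP : ∫ s in (c - r)..(c + r), g s = 2 * r * F) (hyp : α * r < yp - c) (hym : α * r < c - ym)
    (hmp : h yp < F) (hmm : h ym < F) (hfl : ∀ z, ym < z → z < yp → g z < F) :
    ∃ w, (2 * (yp - c) - (1 - α) * r) < (w - c) * (1 + α) ∧
      (w - c) * (1 + α) < (1 - α) * r - 2 * (c - ym) ∧ g w ≤ h ym + h yp - F := by
  obtain ⟨hlen, hp, hq⟩ := float_len hD h0 h1 hr hP hyp hym hmp hmm hfl
  have hb : 0 < 1 + α := by linarith
  set D := (yp - c + α * r) / (1 + α) with hD'
  set E := (c - ym + α * r) / (1 + α) with hE'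
  have D2 : D * (1 + α) = yp - c + α * r := by rw [hD']; field_simp
  have E2 : E * (1 + α) = c - ym + α * r := by rw [hE']; field_simp
  have har : 0 < α * r := by positivity
  have hD0 : 0 < D := by rw [hD']; apply div_pos _ hb; linarith
  have hE0 : 0 < E := by rw [hE']; apply div_pos _ hb; linarith
  have hDE : D + E < r := by
    have : (D + E) * (1 + α) < r * (1 + α) := by
      nlinarith
    exact lt_of_mul_lt_mul_right this hb.le
  have hrD : 0 < r - D := by linarith
  have hrE : 0 < r - E := by linarith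
  have i1 : |yp - (c + D)| ≤ α * (r - D) := by
    have hle : yp - c ≤ r := hp.le
    rw [abs_le]; constructor
    · nlinarith
    · nlinarith
  have i2 : |ym - (c - E)| ≤ α * (r - E) := by
    rw [abs_le]; constructor
    · nlinarith
    · nlinarith
  have k1 := hD.bd yp (c + D) (r - D) hrD i1
  have k2 := hD.bd ym (c - E) (r - E) hrE i2
  have q1 : c + D - (r - D) = c - r + 2 * D := by ring
  have q2 : c + D + (r - D) = c + r := by ring
  have q3 : c - E - (r - E) = c - r := by ring
  have q4 : c - E + (r - E) = c + r - 2 * E := by ring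
  rw [q1, q2] at k1
  rw [q3, q4] at k2
  have hlt : c - r + 2 * D < c + r - 2 * E := by linarith
  have s1 := intervalIntegral.integral_add_adjacent_intervals
    (hD.int (c - r) (c - r + 2 * D)) (hD.int (c - r + 2 * D) (c + r))
  have s2 := intervalIntegral.integral_add_adjacent_intervals
    (hD.int (c - r) (c - r + 2 * D)) (hD.int (c - r + 2 * D) (c + r - 2 * E))
  have e1 : 0 < D * (F - h ym) := mul_pos hD0 (by linarith)
  have e2 : 0 < E * (F - h yp) := mul_pos hE0 (by linarith)
  have h3 : ∫ s in (c - r + 2 * D)..(c + r - 2 * E), g s ≤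
      (h ym + h yp - F) * (c + r - 2 * E - (c - r + 2 * D)) := by
    nlinarith
  obtain ⟨z, z1, z2, z3⟩ := ex_lo hD.int hlt h3
  refine ⟨z, ?_, ?_, z3⟩
  · have : (-r + 2 * D) * (1 + α) < (z - c) * (1 + α) :=
      mul_lt_mul_of_pos_right (by linarith) hb
    nlinarith
  · have : (z - c) * (1 + α) < (r - 2 * E) * (1 + α) :=
      mul_lt_mul_of_pos_right (by linarith) hb
    nlinarith

lemma cub_aux {α : ℝ} (h0 : 0 < α) (hc : α ^ 3 - 9 * α ^ 2 - α + 1 ≤ 0) :
    1 ≤ α ^ 2 + 4 * α := by
  by_contra hcon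
  push Not at hcon
  have h2 : α < 1 / 4 := by nlinarith
  have h3 : 0 < α * (α ^ 2 - 8 * α + 3) := by
    apply mul_pos h0; nlinarith
  nlinarith

/-- Two adjacent floating humps, the left one not lower. -/
lemma pairA (hD : Dat α g h) (h0 : 0 < α) (h1 : α < 1) (hc : α ^ 3 - 9 * α ^ 2 - α + 1 ≤ 0)
    {c r F c' r' F' y0 y1 y2 w v : ℝ} (hr : 0 < r) (hr' : 0 < r')
    (hP : ∫ s in (c - r)..(c + r), g s = 2 * r * F)
    (hP' : ∫ s in (c' - r')..(c' + r'), g s = 2 * r' * F')
    (a1 : α * r < y1 - c) (a2 : α * r < c - y0) (a3 : h y0 < F) (a4 : h y1 < F)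
    (afl : ∀ z, y0 < z → z < y1 → g z < F)
    (b1 : α * r' < y2 - c') (b2 : α * r' < c' - y1) (b3 : h y1 < F') (b4 : h y2 < F')
    (bfl : ∀ z, y1 < z → z < y2 → g z < F') (hFF : F' ≤ F)
    (hw : (w - c) * (1 + α) < (1 - α) * r - 2 * (c - y0)) (hwy : w < y1) (hv : y1 < v) :
    ∃ s, w < s ∧ s < v ∧ h y1 ≤ g s := by
  by_cases hg : h y1 ≤ g y1
  · exact ⟨y1, hwy, hv, hg⟩
  push Not at hg
  have ha : 0 < 1 - α := by linarith
  have hb : 0 < 1 + α := by linarith
  have hfl : ∀ z, y0 < z → z < y2 → g z < F := by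
    intro z z1 z2
    rcases lt_trichotomy z y1 with hz | hz | hz
    · exact afl z z1 hz
    · rw [hz]; linarith
    · exact (bfl z hz z2).trans_le hFF
  have har' : 0 < α * r' := by positivity
  obtain ⟨l1, -, -⟩ := float_len hD h0 h1 hr hP (by linarith : α * r < y2 - c) a2
    (by linarith) a3 hfl
  obtain ⟨-, l2, l3⟩ := float_len hD h0 h1 hr' hP' b1 b2 b4 b3 bfl
  obtain ⟨δ, d0, d1, -, d3⟩ := peakL hD h0 h1 hP' b1 l2 b4
  have hlt : c' - r' < c' - r' + 2 * δ := by linarith
  have h3 : F' * (c' - r' + 2 * δ - (c' - r')) ≤ ∫ s in (c' - r')..(c' - r' + 2 * δ), g s := by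
    have : c' - r' + 2 * δ - (c' - r') = 2 * δ := by ring
    rw [this]; exact d3.le
  obtain ⟨s, s1, s2, s3⟩ := ex_hi hD.int hlt h3
  have hsy : s ≤ y1 := by
    by_contra hcon
    push Not at hcon
    have := bfl s hcon (by linarith)
    linarith
  refine ⟨s, ?_, by linarith, by linarith⟩
  -- the geometric inequality
  have g1 : 2 * α * r' < (1 - 3 * α) * r := by linarith
  have g2 : c + α * r - (1 - α) * r' < c' - r' := by linarith
  have g3 : (w - c) * (1 + α) < (1 - 3 * α) * r := by linarith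
  have g4 : (1 - 3 * α) * r ≤ (1 + α) * (α * r - (1 - α) * r') := by
    have e1 : (1 + α) * (1 - α) * (2 * α * r') ≤ (1 + α) * (1 - α) * ((1 - 3 * α) * r) :=
      mul_le_mul_of_nonneg_left g1.le (by positivity)
    have e2 : (α ^ 3 - 9 * α ^ 2 - α + 1) * r ≤ 0 :=
      mul_nonpos_of_nonpos_of_nonneg hc hr.le
    have e3 : 2 * α * ((1 - 3 * α) * r) ≤ 2 * α * ((1 + α) * (α * r - (1 - α) * r')) := by
      linarith
    exact le_of_mul_le_mul_left e3 (by positivity)
  have g5 : (w - c) * (1 + α) < (α * r - (1 - α) * r') * (1 + α) := by linarith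
  have g6 : w - c < α * r - (1 - α) * r' := lt_of_mul_lt_mul_right g5 hb.le
  linarith

/-- Two adjacent floating humps. -/
lemma pair (hD : Dat α g h) (h0 : 0 < α) (h1 : α < 1) (hc : α ^ 3 - 9 * α ^ 2 - α + 1 ≤ 0)
    {c r F c' r' F' y0 y1 y2 w v : ℝ} (hr : 0 < r) (hr' : 0 < r')
    (hP : ∫ s in (c - r)..(c + r), g s = 2 * r * F)
    (hP' : ∫ s in (c' - r')..(c' + r'), g s = 2 * r' * F')
    (a1 : α * r < y1 - c) (a2 : α * r < c - y0) (a3 : h y0 < F) (a4 : h y1 < F)
    (afl : ∀ z, y0 < z → z < y1 → g z < F)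
    (b1 : α * r' < y2 - c') (b2 : α * r' < c' - y1) (b3 : h y1 < F') (b4 : h y2 < F')
    (bfl : ∀ z, y1 < z → z < y2 → g z < F')
    (hw : (w - c) * (1 + α) < (1 - α) * r - 2 * (c - y0)) (hwy : w < y1)
    (hv' : (2 * (y2 - c') - (1 - α) * r') < (v - c') * (1 + α)) (hv : y1 < v) :
    ∃ s, w < s ∧ s < v ∧ h y1 ≤ g s := by
  rcases le_total F' F with hFF | hFF
  · exact pairA hD h0 h1 hc hr hr' hP hP' a1 a2 a3 a4 afl b1 b2 b3 b4 bfl hFF hw hwy hv
  · have hR := hD.refl
    have hP2 : ∫ s in (-c - r)..(-c + r), g (-s) = 2 * r * F := by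
      rw [intervalIntegral.integral_comp_neg, ← hP]
      congr 1 <;> ring
    have hP2' : ∫ s in (-c' - r')..(-c' + r'), g (-s) = 2 * r' * F' := by
      rw [intervalIntegral.integral_comp_neg, ← hP']
      congr 1 <;> ring
    obtain ⟨s, s1, s2, s3⟩ := pairA (g := fun x => g (-x)) (h := fun x => h (-x)) hR h0 h1 hc
      (c := -c') (r := r') (F := F') (c' := -c) (r' := r) (F' := F) (y0 := -y2) (y1 := -y1)
      (y2 := -y0) (w := -v) (v := -w) hr' hr hP2' hP2
      (by linarith) (by linarith) (by simpa using b4) (by simpa using b3)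
      (fun z z1 z2 => bfl (-z) (by linarith) (by linarith))
      (by linarith) (by linarith) (by simpa using a4) (by simpa using a3)
      (fun z z1 z2 => afl (-z) (by linarith) (by linarith)) hFF
      (by linarith) (by linarith) (by linarith)
    refine ⟨-s, by linarith, by linarith, ?_⟩
    simpa using s3

end lemmas

/-! ### The alternating sums -/

/-- strictly alternating sequences `x₁ < y₁ < x₂ < ... < x_k = x` with `h` of the `y`'s below
`h` of the neighbouring `x`'s, and `S` the alternating sum -/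
inductive Alt (h : ℝ → ℝ) : ℝ → ℝ → Prop
  | single (x : ℝ) : Alt h x (h x)
  | step (x S y x' : ℝ) : Alt h x S → x < y → y < x' → h y < h x → h y < h x' →
      Alt h x' (S - h y + h x')

lemma Alt.raise {h : ℝ → ℝ} {x S : ℝ} (H : Alt h x S) {x' : ℝ} (hx : x ≤ x') (hh : h x ≤ h x') :
    Alt h x' (S - h x + h x') := by
  cases H with
  | single x =>
    have := Alt.single (h := h) x'
    convert this using 1
    ring
  | step x₀ S₀ y x'' H' h1 h2 h3 h4 =>
    have := Alt.step x₀ S₀ y x' H' h1 (by linarith) h3 (by linarith)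
    convert this using 1
    ring

/-- `T` is (variation so far) + (value at the start) and `p` is the current position -/
def Inv (h : ℝ → ℝ) (p T : ℝ) : Prop :=
  ∃ x S, Alt h x S ∧ x ≤ p ∧ h p ≤ h x ∧ T + h p ≤ 2 * S

lemma Inv.start (h : ℝ → ℝ) (a : ℝ) : Inv h a (h a) :=
  ⟨a, h a, Alt.single a, le_refl _, le_refl _, by linarith⟩

lemma Inv.step {h : ℝ → ℝ} {p T : ℝ} (H : Inv h p T) {p' : ℝ} (hp : p ≤ p') :
    Inv h p' (T + |h p' - h p|) := by
  obtain ⟨x, S, hA, hx, hh, hT⟩ := H
  rcases le_or_gt (h p') (h p) with hle | hgt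
  · refine ⟨x, S, hA, hx.trans hp, hle.trans hh, ?_⟩
    rw [abs_of_nonpos (by linarith)]
    linarith
  · have hab : |h p' - h p| = h p' - h p := abs_of_pos (by linarith)
    rw [hab]
    rcases hh.lt_or_eq with hlt | heq
    · have hxp : x < p := by
        rcases hx.lt_or_eq with h1 | h1
        · exact h1
        · rw [h1] at hlt; exact absurd hlt (lt_irrefl _)
      have hpp : p < p' := by
        rcases hp.lt_or_eq with h1 | h1
        · exact h1
        · rw [h1] at hgt; exact absurd hgt (lt_irrefl _)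
      refine ⟨p', _, Alt.step x S p p' hA hxp hpp hlt hgt, le_refl _, le_refl _, ?_⟩
      linarith
    · refine ⟨p', _, hA.raise (hx.trans hp) (by linarith), le_refl _, le_refl _, ?_⟩
      linarith

lemma Inv.run {h : ℝ → ℝ} {a : ℝ} {u : ℕ → ℝ} (hu : Monotone u) (ha : a ≤ u 0) (n : ℕ) :
    Inv h (u n) (h a + |h (u 0) - h a| + ∑ i ∈ Finset.range n, |h (u (i + 1)) - h (u i)|) := by
  induction n with
  | zero =>
    simpa using (Inv.start h a).step ha
  | succ n ih =>
    have := ih.step (hu (Nat.le_succ n))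
    rw [Finset.sum_range_succ, ← add_assoc]
    exact this


section core

variable {α : ℝ} {g h V : ℝ → ℝ} {L C : ℝ}

lemma oneR (hD : Dat α g h) (h0 : 0 < α) (h1 : α < 1) {c r F x y : ℝ} (hr : 0 < r)
    (hP : ∫ s in (c - r)..(c + r), g s = 2 * r * F) (hx : |x - c| ≤ α * r) (hxy : x < y)
    (hy : h y < F) : ∃ z, z < y ∧ F ≤ g z := by
  have ho := out_right hD hr hP hx hxy hy
  rcases lt_or_ge (y - c) r with hlt | hge
  · obtain ⟨δ, d0, d1, -, d3⟩ := peakL hD h0 h1 hP ho hlt hy
    have hlt' : c - r < c - r + 2 * δ := by linarith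
    have h3 : F * (c - r + 2 * δ - (c - r)) ≤ ∫ s in (c - r)..(c - r + 2 * δ), g s := by
      have : c - r + 2 * δ - (c - r) = 2 * δ := by ring
      rw [this]; exact d3.le
    obtain ⟨z, z1, z2, z3⟩ := ex_hi hD.int hlt' h3
    exact ⟨z, by linarith, z3⟩
  · have hlt' : c - r < c + r := by linarith
    have h3 : F * (c + r - (c - r)) ≤ ∫ s in (c - r)..(c + r), g s := by
      rw [hP]; linarith
    obtain ⟨z, z1, z2, z3⟩ := ex_hi hD.int hlt' h3
    exact ⟨z, by linarith, z3⟩

lemma oneL (hD : Dat α g h) (h0 : 0 < α) (h1 : α < 1) {c r F x y : ℝ} (hr : 0 < r)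
    (hP : ∫ s in (c - r)..(c + r), g s = 2 * r * F) (hx : |x - c| ≤ α * r) (hxy : y < x)
    (hy : h y < F) : ∃ z, y < z ∧ F ≤ g z := by
  have ho := out_left hD hr hP hx hxy hy
  rcases lt_or_ge (c - y) r with hlt | hge
  · obtain ⟨δ, d0, d1, -, d3⟩ := peakR hD h0 h1 hP ho hlt hy
    have hlt' : c + r - 2 * δ < c + r := by linarith
    have h3 : F * (c + r - (c + r - 2 * δ)) ≤ ∫ s in (c + r - 2 * δ)..(c + r), g s := by
      have : c + r - (c + r - 2 * δ) = 2 * δ := by ring
      rw [this]; exact d3.le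
    obtain ⟨z, z1, z2, z3⟩ := ex_hi hD.int hlt' h3
    exact ⟨z, by linarith, z3⟩
  · have hlt' : c - r < c + r := by linarith
    have h3 : F * (c + r - (c - r)) ≤ ∫ s in (c - r)..(c + r), g s := by
      rw [hP]; linarith
    obtain ⟨z, z1, z2, z3⟩ := ex_hi hD.int hlt' h3
    exact ⟨z, by linarith, z3⟩

lemma noVal (hD : Dat α g h) {c r F : ℝ} (hr : 0 < r)
    (hP : ∫ s in (c - r)..(c + r), g s = 2 * r * F) : ∃ z, F ≤ g z := by
  have hlt' : c - r < c + r := by linarith
  have h3 : F * (c + r - (c - r)) ≤ ∫ s in (c - r)..(c + r), g s := by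
    rw [hP]; linarith
  obtain ⟨z, z1, z2, z3⟩ := ex_hi hD.int hlt' h3
  exact ⟨z, z3⟩

/-- State after the valley `y`; `R` is the alternating sum including `- h y`. -/
def State (α : ℝ) (g h V : ℝ → ℝ) (L y R : ℝ) : Prop :=
  (∃ z, z < y ∧ 2 * R ≤ L + V z + g z - 2 * h y) ∨
  (∃ w y0 c r F, w < y ∧ 2 * R ≤ L + V w - g w ∧ 0 < r ∧
    (∫ s in (c - r)..(c + r), g s = 2 * r * F) ∧ α * r < y - c ∧ α * r < c - y0 ∧ h y0 < F ∧
    h y < F ∧ (∀ z, y0 < z → z < y → g z < F) ∧
    (w - c) * (1 + α) < (1 - α) * r - 2 * (c - y0))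

lemma State.next (hD : Dat α g h) (h0 : 0 < α) (h1 : α < 1)
    (hc : α ^ 3 - 9 * α ^ 2 - α + 1 ≤ 0) (hV : ∀ z z', z ≤ z' → |g z' - g z| ≤ V z' - V z)
    {y R : ℝ} (H : State α g h V L y R) {c' r' F' x' y' : ℝ} (hr' : 0 < r')
    (hP' : ∫ s in (c' - r')..(c' + r'), g s = 2 * r' * F') (hx' : |x' - c'| ≤ α * r')
    (hyx : y < x') (hxy : x' < y') (hy : h y < F') (hy' : h y' < F') :
    State α g h V L y' (R + F' - h y') := by
  have b1 := out_right hD hr' hP' hx' hxy hy'
  have b2 := out_left hD hr' hP' hx' hyx hy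
  by_cases hfl : ∀ z, y < z → z < y' → g z < F'
  · -- floating
    obtain ⟨w', w1, w2, w3⟩ := float_low hD h0 h1 hr' hP' b1 b2 hy' hy hfl
    have hb : 0 < 1 + α := by linarith
    have hca := cub_aux h0 hc
    have hwy' : w' < y' := by
      have e1 : (w' - c') * (1 + α) < (α * r') * (1 + α) := by
        have : 1 * r' ≤ (α ^ 2 + 4 * α) * r' := mul_le_mul_of_nonneg_right hca hr'.le
        linarith
      have e2 := lt_of_mul_lt_mul_right e1 hb.le
      linarith
    have hyw' : y < w' := by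
      have e1 : (-(α * r')) * (1 + α) < (w' - c') * (1 + α) := by
        have : 1 * r' ≤ (α ^ 2 + 4 * α) * r' := mul_le_mul_of_nonneg_right hca hr'.le
        linarith
      have e2 := lt_of_mul_lt_mul_right e1 hb.le
      linarith
    right
    refine ⟨w', y, c', r', F', hwy', ?_, hr', hP', b1, b2, hy, hy', hfl, w2⟩
    rcases H with ⟨z, hz, hR⟩ | ⟨w, y0, c, r, F, hw, hR, hr, hP, a1, a2, a3, a4, afl, a5⟩
    · have := (abs_le.1 (hV z w' (by linarith))).1
      linarith
    · obtain ⟨s, s1, s2, s3⟩ := pair hD h0 h1 hc hr hr' hP hP' a1 a2 a3 a4 afl b1 b2 hy hy' hfl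
        a5 hw w1 hyw'
      have t1 := (abs_le.1 (hV w s s1.le)).2
      have t2 := (abs_le.1 (hV s w' s2.le)).1
      linarith
  · -- attached
    push Not at hfl
    obtain ⟨z', z1, z2, z3⟩ := hfl
    left
    refine ⟨z', z2, ?_⟩
    rcases H with ⟨z, hz, hR⟩ | ⟨w, y0, c, r, F, hw, hR, -⟩
    · -- small interval around y
      set t := min (y - z) (z' - y) / 2 with ht
      have ht0 : 0 < min (y - z) (z' - y) := lt_min (by linarith) (by linarith)
      have ht1 : min (y - z) (z' - y) ≤ y - z := min_le_left _ _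
      have ht2 : min (y - z) (z' - y) ≤ z' - y := min_le_right _ _
      have ht' : 0 < t := by linarith
      have k := hD.bd y y t ht' (by simp; positivity)
      obtain ⟨v, v1, v2, v3⟩ := ex_lo (F := h y) hD.int (by linarith : y - t < y + t)
        (by linarith)
      have q1 := (abs_le.1 (hV z v (by linarith))).1
      have q2 := (abs_le.1 (hV v z' (by linarith))).2
      linarith
    · have q2 := (abs_le.1 (hV w z' (by linarith))).2
      linarith

lemma State.fin (hD : Dat α g h) (h0 : 0 < α) (h1 : α < 1)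
    (hV : ∀ z z', z ≤ z' → |g z' - g z| ≤ V z' - V z) (hC : ∀ z, L + V z + g z ≤ C)
    {y R : ℝ} (H : State α g h V L y R) {c' r' F' x' : ℝ} (hr' : 0 < r')
    (hP' : ∫ s in (c' - r')..(c' + r'), g s = 2 * r' * F') (hx' : |x' - c'| ≤ α * r')
    (hyx : y < x') (hy : h y < F') : 2 * (R + F') ≤ C := by
  obtain ⟨z', z1, z3⟩ := oneL hD h0 h1 hr' hP' hx' hyx hy
  refine le_trans ?_ (hC z')
  rcases H with ⟨z, hz, hR⟩ | ⟨w, y0, c, r, F, hw, hR, -⟩
  · -- small interval around y
    set t := min (y - z) (z' - y) / 2 with ht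
    have ht0 : 0 < min (y - z) (z' - y) := lt_min (by linarith) (by linarith)
    have ht1 : min (y - z) (z' - y) ≤ y - z := min_le_left _ _
    have ht2 : min (y - z) (z' - y) ≤ z' - y := min_le_right _ _
    have ht' : 0 < t := by linarith
    have k := hD.bd y y t ht' (by simp; positivity)
    obtain ⟨v, v1, v2, v3⟩ := ex_lo (F := h y) hD.int (by linarith : y - t < y + t)
      (by linarith)
    have q1 := (abs_le.1 (hV z v (by linarith))).1
    have q2 := (abs_le.1 (hV v z' (by linarith))).2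
    linarith
  · have q2 := (abs_le.1 (hV w z' (by linarith))).2
    linarith

theorem core (hD : Dat α g h) (h0 : 0 < α) (h1 : α < 1)
    (hc : α ^ 3 - 9 * α ^ 2 - α + 1 ≤ 0)
    (hsup : ∀ x ε : ℝ, 0 < ε → ∃ c r, 0 < r ∧ |x - c| ≤ α * r ∧
      2 * r * (h x - ε) < ∫ s in (c - r)..(c + r), g s)
    (hV : ∀ z z', z ≤ z' → |g z' - g z| ≤ V z' - V z) (hL : ∀ z, g z ≤ L + V z)
    (hC : ∀ z, L + V z + g z ≤ C) {x S : ℝ} (hA : Alt h x S) : 2 * S ≤ C := by
  have hsup' : ∀ x ε : ℝ, 0 < ε → ∃ c r F, 0 < r ∧ |x - c| ≤ α * r ∧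
      (∫ s in (c - r)..(c + r), g s = 2 * r * F) ∧ h x - ε < F := by
    intro x ε hε
    obtain ⟨c, r, hr, hx, hlt⟩ := hsup x ε hε
    have h2r : 0 < 2 * r := by linarith
    refine ⟨c, r, (∫ s in (c - r)..(c + r), g s) / (2 * r), hr, hx, ?_, ?_⟩
    · field_simp
    · rw [lt_div_iff₀ h2r]; linarith
  have key : (∀ ε > 0, ∀ y, x < y → h y < h x → ∃ R, S - h y - ε ≤ R ∧ State α g h V L y R) ∧
      (∀ ε > 0, 2 * (S - ε) ≤ C) := by
    induction hA with
    | single x =>
      constructor
      · intro ε hε y hxy hy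
        obtain ⟨c, r, F, hr, hx, hP, hF⟩ := hsup' x (min ε (h x - h y)) (lt_min hε (by linarith))
        have m1 : min ε (h x - h y) ≤ ε := min_le_left _ _
        have m2 : min ε (h x - h y) ≤ h x - h y := min_le_right _ _
        obtain ⟨z, z1, z2⟩ := oneR hD h0 h1 hr hP hx hxy (by linarith)
        refine ⟨F - h y, by linarith, Or.inl ⟨z, z1, ?_⟩⟩
        have := hL z
        linarith
      · intro ε hε
        obtain ⟨c, r, F, hr, hx, hP, hF⟩ := hsup' x ε hε
        obtain ⟨z, z2⟩ := noVal hD hr hP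
        have := hL z
        have := hC z
        linarith
    | step x S y x' H hxy hyx' hy hy' ih =>
      obtain ⟨ih1, -⟩ := ih
      constructor
      · intro ε hε y' hxy' hyy'
        obtain ⟨R, hR, hS⟩ := ih1 (ε / 2) (by linarith) y hxy hy
        obtain ⟨c, r, F, hr, hx, hP, hF⟩ := hsup' x' (min (ε / 2) (min (h x' - h y) (h x' - h y')))
          (lt_min (by linarith) (lt_min (by linarith) (by linarith)))
        have m1 : min (ε / 2) (min (h x' - h y) (h x' - h y')) ≤ ε / 2 := min_le_left _ _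
        have m2 : min (ε / 2) (min (h x' - h y) (h x' - h y')) ≤ h x' - h y :=
          (min_le_right _ _).trans (min_le_left _ _)
        have m3 : min (ε / 2) (min (h x' - h y) (h x' - h y')) ≤ h x' - h y' :=
          (min_le_right _ _).trans (min_le_right _ _)
        refine ⟨R + F - h y', by linarith, ?_⟩
        exact hS.next hD h0 h1 hc hV hr hP hx hyx' hxy' (by linarith) (by linarith)
      · intro ε hε
        obtain ⟨R, hR, hS⟩ := ih1 (ε / 2) (by linarith) y hxy hy
        obtain ⟨c, r, F, hr, hx, hP, hF⟩ := hsup' x' (min (ε / 2) (h x' - h y))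
          (lt_min (by linarith) (by linarith))
        have m1 : min (ε / 2) (h x' - h y) ≤ ε / 2 := min_le_left _ _
        have m2 : min (ε / 2) (h x' - h y) ≤ h x' - h y := min_le_right _ _
        have := hS.fin hD h0 h1 hV hC hr hP hx hyx' (by linarith)
        linarith
  by_contra hcon
  push Not at hcon
  have := key.2 ((2 * S - C) / 4) (by linarith)
  linarith

end core

end Pool.Agent.Helper34.Nt
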