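import Pool.Agent.Helper34.Nt.Core

set_option autoImplicit false
open MeasureTheory Set

namespace Pool.Agent.Helper34.Nt

/-- A floating hump `[c-r,c+r]` with average `F` between the valleys `ym < yp`. -/
structure Fl (α : ℝ) (g h : ℝ → ℝ) (ym yp c r F : ℝ) : Prop where
  hr : 0 < r
  hP : ∫ s in (c - r)..(c + r), g s = 2 * r * F
  hp : α * r < yp - c
  hq : α * r < c - ym
  hm : h ym < F
  hn : h yp < F
  fl : ∀ z, ym < z → z < yp → g z < F

lemma Fl.refl {α : ℝ} {g h : ℝ → ℝ} {ym yp c r F : ℝ} (H : Fl α g h ym yp c r F) :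
    Fl α (fun x => g (-x)) (fun x => h (-x)) (-yp) (-ym) (-c) r F := by
  refine ⟨H.hr, ?_, by linarith [H.hq], by linarith [H.hp], by simpa using H.hn,
    by simpa using H.hm, fun z z1 z2 => H.fl (-z) (by linarith) (by linarith)⟩
  rw [intervalIntegral.integral_comp_neg, ← H.hP]
  congr 1 <;> ring

/-- right cut -/
structure RC (g h : ℝ → ℝ) (y0 y c r F u e : ℝ) : Prop where
  e0 : 0 ≤ e
  e1 : e ≤ c + r - u
  int : ∫ s in (c - r)..u, g s ≤
    F * (u - (c - r)) - (F - h y0) * (u - (c - r) + e) + e * (F - h y)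

/-- left cut -/
structure LC (g h : ℝ → ℝ) (y0 y c r F l e : ℝ) : Prop where
  e0 : 0 ≤ e
  e1 : e ≤ l - (c - r)
  int : ∫ s in l..(c + r), g s ≤
    F * (c + r - l) - (F - h y) * (c + r - l + e) + e * (F - h y0)

lemma RC.refl {g h : ℝ → ℝ} {y0 y c r F u e : ℝ}
    (H : RC (fun x => g (-x)) (fun x => h (-x)) y0 y c r F u e) :
    LC g h (-y) (-y0) (-c) r F (-u) e := by
  refine ⟨H.e0, by linarith [H.e1], ?_⟩
  have h1 := H.int
  rw [intervalIntegral.integral_comp_neg] at h1
  have e1 : -(c - r) = -c + r := by ring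
  rw [e1] at h1
  linarith

section

variable {α : ℝ} {g h : ℝ → ℝ}

/-- a low point between a left cut and a right cut -/
lemma low (hD : Dat α g h) {y0 y c r F l e u e' : ℝ} (P : Fl α g h y0 y c r F)
    (hl : LC g h y0 y c r F l e) (hu : RC g h y0 y c r F u e') (hlu : l < u) :
    ∃ w, l < w ∧ w < u ∧ g w ≤ h y0 + h y - F := by
  have s1 := intervalIntegral.integral_add_adjacent_intervals
    (hD.int (c - r) l) (hD.int l (c + r))
  have s2 := intervalIntegral.integral_add_adjacent_intervals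
    (hD.int (c - r) l) (hD.int l u)
  have i1 := hl.int
  have i2 := hu.int
  have hP := P.hP
  have k1 : 0 ≤ (F - h y) * (c + r - u + e - e') :=
    mul_nonneg (by linarith [P.hn]) (by linarith [hl.e0, hu.e1])
  have k2 : 0 ≤ (F - h y0) * (l - (c - r) + e' - e) :=
    mul_nonneg (by linarith [P.hm]) (by linarith [hu.e0, hl.e1])
  apply ex_lo hD.int hlu
  linarith

/-- the standard right cut -/
lemma rc_std (hD : Dat α g h) (h0 : 0 < α) (h1 : α < 1) {y0 y c r F u : ℝ}
    (P : Fl α g h y0 y c r F) (hu : (u - c) * (1 + α) = (1 - α) * r - 2 * (c - y0)) :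
    RC g h y0 y c r F u 0 := by
  obtain ⟨l1, l2, l3⟩ := float_len hD h0 h1 P.hr P.hP P.hp P.hq P.hn P.hm P.fl
  have hr := P.hr
  have hq := P.hq
  have ha : 0 < 1 - α := by linarith
  have hb : 0 < 1 + α := by linarith
  set E := (c + r - u) / 2 with hE
  have E2 : E * (1 + α) = c - y0 + α * r := by rw [hE]; linarith
  have har : 0 < α * r := by positivity
  have hE0 : 0 < E := by
    by_contra hcon
    push Not at hcon
    have : E * (1 + α) ≤ 0 := mul_nonpos_of_nonpos_of_nonneg hcon hb.le
    linarith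
  have hrE : 0 < r - E := by
    have : E * (1 + α) < r * (1 + α) := by linarith
    have := lt_of_mul_lt_mul_right this hb.le
    linarith
  have i2 : |y0 - (c - E)| ≤ α * (r - E) := by
    rw [abs_le]; constructor
    · -- -(α(r-E)) ≤ y0 - c + E, i.e. q - αr ≤ E(1-α)
      have e1 : (c - y0 - α * r) * (1 + α) ≤ E * (1 - α) * (1 + α) := by
        have : E * (1 - α) * (1 + α) = (c - y0 + α * r) * (1 - α) := by rw [← E2]; ring
        rw [this]
        have := mul_lt_mul_of_pos_left l3 h0
        linarith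
      have := le_of_mul_le_mul_right e1 hb
      linarith
    · linarith
  have k2 := hD.bd y0 (c - E) (r - E) hrE i2
  have q3 : c - E - (r - E) = c - r := by ring
  have q4 : c - E + (r - E) = u := by rw [hE]; ring
  rw [q3, q4] at k2
  have q5 : 2 * (r - E) = u - (c - r) := by rw [hE]; ring
  rw [q5] at k2
  exact ⟨le_refl _, by linarith, by linarith⟩

lemma right_lt (h0 : 0 < α) (hK : 1 ≤ α ^ 2 + 4 * α) {y0 y c r F u : ℝ}
    (P : Fl α g h y0 y c r F) (hu : (u - c) * (1 + α) ≤ (1 - α) * r - 2 * (c - y0)) :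
    u < c + α * r := by
  have hr := P.hr
  have hq := P.hq
  have hb : 0 < 1 + α := by linarith
  have e1 : (u - c) * (1 + α) < (α * r) * (1 + α) := by
    have : 1 * r ≤ (α ^ 2 + 4 * α) * r := mul_le_mul_of_nonneg_right hK hr.le
    linarith
  have e2 := lt_of_mul_lt_mul_right e1 hb.le
  linarith

/-- the right cut given by a lower floating neighbour on the right -/
lemma rc_nbr (hD : Dat α g h) (h0 : 0 < α) (h1 : α < 1) (hK : 1 ≤ α ^ 2 + 4 * α)
    {y0 y1 y2 c r F c' r' F' : ℝ} (P : Fl α g h y0 y1 c r F) (Q : Fl α g h y1 y2 c' r' F')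
    (hFF : F' ≤ F) (hg : g y1 < F)
    (hbad : (c' - r' - c) * (1 + α) < (1 - α) * r - 2 * (c - y0)) :
    ∃ e, RC g h y0 y1 c r F (c' - r') e := by
  have ha : 0 < 1 - α := by linarith
  have hb : 0 < 1 + α := by linarith
  have hr := P.hr
  have hr' := Q.hr
  have har : 0 < α * r := by positivity
  have har' : 0 < α * r' := by positivity
  have hPp := P.hp
  have hPq := P.hq
  have hQp := Q.hp
  have hQq := Q.hq
  have hfl : ∀ z, y0 < z → z < y2 → g z < F := by
    intro z z1 z2
    rcases lt_trichotomy z y1 with hz | hz | hz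
    · exact P.fl z z1 hz
    · rw [hz]; exact hg
    · exact (Q.fl z hz z2).trans_le hFF
  obtain ⟨l1, -, -⟩ := float_len hD h0 h1 P.hr P.hP (by linarith : α * r < y2 - c) P.hq
    (by linarith [Q.hn]) P.hm hfl
  obtain ⟨-, l2, l3⟩ := float_len hD h0 h1 Q.hr Q.hP Q.hp Q.hq Q.hn Q.hm Q.fl
  obtain ⟨δ, d0, d1, d2, d3⟩ := peakL hD h0 h1 Q.hP Q.hp l2 Q.hn
  have d2' : δ * (1 - α) = y2 - c' - α * r' := by rw [d2]; field_simp
  set o := c + ((1 - α) * r - 2 * (c - y0)) / (1 + α) with ho
  have o2 : (o - c) * (1 + α) = (1 - α) * r - 2 * (c - y0) := by rw [ho]; field_simp; ring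
  have ho1 : o < c + α * r := right_lt h0 hK P o2.le
  have hao : c' - r' < o := by
    have : (c' - r' - c) * (1 + α) < (o - c) * (1 + α) := by rw [o2]; exact hbad
    have := lt_of_mul_lt_mul_right this hb.le
    linarith
  obtain ⟨t, t1, t2, t3, t4⟩ : ∃ t, o ≤ t ∧ c' - r' + 2 * δ ≤ t ∧ t < y2 ∧
      (t = o ∨ t = c' - r' + 2 * δ) := by
    rcases le_total o (c' - r' + 2 * δ) with hle | hle
    · exact ⟨_, hle, le_refl _, d1, Or.inr rfl⟩
    · exact ⟨_, le_refl _, hle, by linarith, Or.inl rfl⟩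
  -- the part of P
  set E := (c + r - t) / 2 with hE
  have hE1 : E * (1 + α) ≤ c - y0 + α * r := by
    have := mul_le_mul_of_nonneg_right t1 hb.le
    rw [hE]; linarith
  have hq1 : (c - y0) * (1 + α) ≤ α * r * (3 - α) := by
    have e1 : c - y0 < (1 - 2 * α) * r := by linarith
    have e2 := mul_lt_mul_of_pos_right e1 hb
    have e3 : 1 * r ≤ (α ^ 2 + 4 * α) * r := mul_le_mul_of_nonneg_right hK hr.le
    linarith
  have hE2 : c - y0 - α * r ≤ E * (1 - α) := by
    have e1 : (α * r + (c - y0)) ≤ 2 * E := by rw [hE]; linarith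
    have e2 := mul_le_mul_of_nonneg_right e1 ha.le
    linarith
  have hE0 : 0 < E := by
    have e1 : (α * r + (c - y0)) ≤ 2 * E := by rw [hE]; linarith
    linarith
  have hrE : 0 < r - E := by
    have e3 : (c - y0) < r := by linarith
    have : E * (1 + α) < r * (1 + α) := by linarith
    have := lt_of_mul_lt_mul_right this hb.le
    linarith
  have i1 : |y0 - (c - E)| ≤ α * (r - E) := by
    rw [abs_le]; constructor <;> linarith
  have k1 := hD.bd y0 (c - E) (r - E) hrE i1
  have q1 : c - E - (r - E) = c - r := by ring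
  have q2 : c - E + (r - E) = t := by rw [hE]; ring
  have q3 : 2 * (r - E) = t - (c - r) := by rw [hE]; ring
  rw [q1, q2, q3] at k1
  -- the part of Q
  set D := (t - (c' - r')) / 2 with hDd
  have hD1 : δ ≤ D := by rw [hDd]; linarith
  have hD2 : y2 - c' - α * r' ≤ D * (1 - α) := by
    have := mul_le_mul_of_nonneg_right hD1 ha.le
    linarith
  have hD3 : D * (1 + α) ≤ y2 - c' + α * r' := by
    rcases t4 with t4 | t4
    · -- t = o
      have e1 : t < c' - α * r' := by rw [t4]; linarith
      have e2 : D < (r' - α * r') / 2 := by rw [hDd]; linarith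
      have e3 := mul_lt_mul_of_pos_right e2 hb
      have e4 : 1 * r' ≤ (α ^ 2 + 4 * α) * r' := mul_le_mul_of_nonneg_right hK hr'.le
      linarith
    · have e1 : D = δ := by rw [hDd, t4]; ring
      rw [e1]
      have e2 : δ * (1 + α) * (1 - α) ≤ (y2 - c' + α * r') * (1 - α) := by
        have : δ * (1 + α) * (1 - α) = (y2 - c' - α * r') * (1 + α) := by rw [← d2']; ring
        rw [this]
        have := mul_lt_mul_of_pos_left l2 h0
        linarith
      exact le_of_mul_le_mul_right e2 ha
  have hrD : 0 < r' - D := by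
    have : D * (1 + α) < r' * (1 + α) := by linarith
    have := lt_of_mul_lt_mul_right this hb.le
    linarith
  have i2 : |y2 - (c' + D)| ≤ α * (r' - D) := by
    rw [abs_le]; constructor <;> linarith
  have k2 := cutR hD Q.hP hrD i2
  have q4 : c' - r' + 2 * D = t := by rw [hDd]; ring
  rw [q4] at k2
  have k3 : (r' - D) * h y2 < (r' - D) * F' := mul_lt_mul_of_pos_left Q.hn hrD
  have q5 : 2 * D = t - (c' - r') := by rw [hDd]; ring
  have k4 : F' * (t - (c' - r')) ≤ ∫ s in (c' - r')..t, g s := by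
    rw [← q5]; linarith
  have s1 := intervalIntegral.integral_add_adjacent_intervals
    (hD.int (c - r) (c' - r')) (hD.int (c' - r') t)
  refine ⟨t - (c' - r'), by linarith, by linarith, ?_⟩
  have k5 : 0 ≤ (t - (c' - r')) * (F' - h y1) := mul_nonneg (by linarith) (by linarith [Q.hm])
  linarith

/-- the standard left cut -/
lemma lc_std (hD : Dat α g h) (h0 : 0 < α) (h1 : α < 1) {y0 y c r F l : ℝ}
    (P : Fl α g h y0 y c r F) (hl : (l - c) * (1 + α) = 2 * (y - c) - (1 - α) * r) :
    LC g h y0 y c r F l 0 := by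
  have k := rc_std hD.refl h0 h1 P.refl (u := -l) (by linarith)
  have k2 := RC.refl k
  simpa using k2

lemma left_gt (h0 : 0 < α) (hK : 1 ≤ α ^ 2 + 4 * α) {y0 y c r F l : ℝ}
    (P : Fl α g h y0 y c r F) (hl : 2 * (y - c) - (1 - α) * r ≤ (l - c) * (1 + α)) :
    c - α * r < l := by
  have k := right_lt h0 hK P.refl (u := -l) (by linarith)
  linarith

/-- the left cut given by a lower floating neighbour on the left -/
lemma lc_nbr (hD : Dat α g h) (h0 : 0 < α) (h1 : α < 1) (hK : 1 ≤ α ^ 2 + 4 * α)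
    {y0 y1 y2 c r F c' r' F' : ℝ} (P : Fl α g h y0 y1 c r F) (Q : Fl α g h y1 y2 c' r' F')
    (hFF : F ≤ F') (hg : g y1 < F')
    (hbad : 2 * (y2 - c') - (1 - α) * r' < (c + r - c') * (1 + α)) :
    ∃ e, LC g h y1 y2 c' r' F' (c + r) e := by
  obtain ⟨e, k⟩ := rc_nbr hD.refl h0 h1 hK Q.refl P.refl hFF (by simpa using hg) (by linarith)
  have e1 : -c - r = -(c + r) := by ring
  rw [e1] at k
  refine ⟨e, ?_⟩
  have k2 := RC.refl k
  simpa using k2

/-- geometric information on a left cut `l` -/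
def Geo (α y0 yL y c r l : ℝ) : Prop :=
  (l - c) * (1 + α) ≤ 2 * (y - c) - (1 - α) * r ∨ 2 * α * (l - y0) ≤ (1 - α) * (y0 - yL)

lemma geo1 (h0 : 0 < α) (h1 : α < 1) (hK : 1 ≤ α ^ 2 + 4 * α) {y0 yL y c r F l u : ℝ}
    (P : Fl α g h y0 y c r F) (hyL : yL ≤ y0) (hlen : y - yL < (1 - α) * r)
    (hl : Geo α y0 yL y c r l) (hu : (u - c) * (1 + α) = (1 - α) * r - 2 * (c - y0)) : l < u := by
  have ha : 0 < 1 - α := by linarith
  have hb : 0 < 1 + α := by linarith
  have hr := P.hr
  have hp := P.hp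
  have hq := P.hq
  rcases hl with hl | hl
  · have : (l - c) * (1 + α) < (u - c) * (1 + α) := by linarith
    have := lt_of_mul_lt_mul_right this hb.le
    linarith
  · have n1 : 0 ≤ (1 - α) * (1 - α) * (c - y0 - α * r) := by
      apply mul_nonneg (by positivity); linarith
    have n2 : 0 ≤ (1 - α) * (1 + α) * (y - c - α * r) := by
      apply mul_nonneg (by positivity); linarith
    have n3 : 0 ≤ (1 - α) * r * (α ^ 2 + 4 * α - 1) := by
      apply mul_nonneg (by positivity); linarith
    have n4 : (1 + α) * (2 * α * (l - y0)) ≤ (1 + α) * ((1 - α) * (y0 - yL)) :=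
      mul_le_mul_of_nonneg_left hl hb.le
    have n5 : (1 + α) * (1 - α) * (y0 - yL) < (1 + α) * (1 - α) * ((1 - α) * r - (y - y0)) := by
      apply mul_lt_mul_of_pos_left _ (by positivity); linarith
    have n6 : 2 * α * ((u - c) * (1 + α)) = 2 * α * ((1 - α) * r - 2 * (c - y0)) := by rw [hu]
    have n7 : (2 * α * (1 + α)) * l < (2 * α * (1 + α)) * u := by linarith
    exact lt_of_mul_lt_mul_left n7 (by positivity)

lemma geo2 (h0 : 0 < α) (h1 : α < 1) (hK : 1 ≤ α ^ 2 + 4 * α) {y0 yL y y2 c r F l u : ℝ}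
    (P : Fl α g h y0 y c r F) (hyL : yL ≤ y0) (hlen : y2 - yL < (1 - α) * r)
    (hl : Geo α y0 yL y c r l) (hu : 2 * α * (y - u) < (1 - α) * (y2 - y)) : l < u := by
  have ha : 0 < 1 - α := by linarith
  have hb : 0 < 1 + α := by linarith
  have hr := P.hr
  have hp := P.hp
  have hq := P.hq
  rcases hl with hl | hl
  · have n1 : 0 ≤ (1 - α) * (1 - α) * (y - c - α * r) := by
      apply mul_nonneg (by positivity); linarith
    have n2 : 0 ≤ (1 - α) * (1 + α) * (c - y0 - α * r) := by
      apply mul_nonneg (by positivity); linarith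
    have n3 : 0 ≤ (1 - α) * r * (α ^ 2 + 4 * α - 1) := by
      apply mul_nonneg (by positivity); linarith
    have n4 : (1 + α) * (2 * α * (y - u)) < (1 + α) * ((1 - α) * (y2 - y)) :=
      mul_lt_mul_of_pos_left hu hb
    have n5 : (1 + α) * (1 - α) * (y2 - y) < (1 + α) * (1 - α) * ((1 - α) * r - (y - y0)) := by
      apply mul_lt_mul_of_pos_left _ (by positivity); linarith
    have n6 : 2 * α * ((l - c) * (1 + α)) ≤ 2 * α * (2 * (y - c) - (1 - α) * r) :=
      mul_le_mul_of_nonneg_left hl (by positivity)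
    have n7 : (2 * α * (1 + α)) * l < (2 * α * (1 + α)) * u := by linarith
    exact lt_of_mul_lt_mul_left n7 (by positivity)
  · have n1 : 0 ≤ (1 + α) * (y - y0 - 2 * α * r) := by
      apply mul_nonneg hb.le; linarith
    have n3 : 0 ≤ r * (α ^ 2 + 4 * α - 1) := by
      apply mul_nonneg hr.le; linarith
    have n5 : (1 - α) * (y2 - yL) < (1 - α) * ((1 - α) * r) :=
      mul_lt_mul_of_pos_left hlen ha
    have n7 : (2 * α) * l < (2 * α) * u := by linarith
    exact lt_of_mul_lt_mul_left n7 (by positivity)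

/-- the state after a floating hump -/
structure SB (α : ℝ) (g h V : ℝ → ℝ) (L y R y0 yL c r F l e : ℝ) : Prop where
  P : Fl α g h y0 y c r F
  hyL : yL ≤ y0
  hL : h yL < F
  flL : ∀ z, yL < z → z < y → g z < F
  y0l : y0 < l
  geo : Geo α y0 yL y c r l
  lc : LC g h y0 y c r F l e
  key : ∀ w, l < w → w < y → g w ≤ h y0 + h y - F → 2 * R ≤ L + V w - g w

/-- State after the valley `y`; `R` is the alternating sum including `- h y`. -/
def St (α : ℝ) (g h V : ℝ → ℝ) (L y R : ℝ) : Prop :=
  (∃ z, z < y ∧ 2 * R ≤ L + V z + g z - 2 * h y) ∨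
  (∃ y0 yL c r F l e, SB α g h V L y R y0 yL c r F l e)

variable {V : ℝ → ℝ} {L C : ℝ}

/-- finish a floating hump with the standard right cut -/
lemma SB.close (hD : Dat α g h) (h0 : 0 < α) (h1 : α < 1) (hK : 1 ≤ α ^ 2 + 4 * α)
    {y R y0 yL c r F l e : ℝ} (H : SB α g h V L y R y0 yL c r F l e) :
    ∃ w, w < y ∧ 2 * R ≤ L + V w - g w := by
  have hb : 0 < 1 + α := by linarith
  set o := c + ((1 - α) * r - 2 * (c - y0)) / (1 + α) with ho
  have o2 : (o - c) * (1 + α) = (1 - α) * r - 2 * (c - y0) := by rw [ho]; field_simp; ring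
  have ho1 : o < c + α * r := right_lt h0 hK H.P o2.le
  have hp := H.P.hp
  have hq := H.P.hq
  have hyL := H.hyL
  obtain ⟨l1, -, -⟩ := float_len hD h0 h1 H.P.hr H.P.hP H.P.hp (by linarith : α * r < c - yL)
    H.P.hn H.hL H.flL
  have hlo : l < o := geo1 h0 h1 hK H.P H.hyL l1 H.geo o2
  have rc := rc_std hD h0 h1 H.P o2
  obtain ⟨w, w1, w2, w3⟩ := low hD H.P H.lc rc hlo
  exact ⟨w, by linarith, H.key w w1 (by linarith) w3⟩

/-- the pair lemma: the next hump is floating and not higher -/
lemma SB.pair (hD : Dat α g h) (h0 : 0 < α) (h1 : α < 1) (hK : 1 ≤ α ^ 2 + 4 * α)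
    {y R y0 yL c r F l e : ℝ} (H : SB α g h V L y R y0 yL c r F l e) {y2 c' r' F' : ℝ}
    (Q : Fl α g h y y2 c' r' F') (hFF : F' ≤ F) (hg : g y < h y) :
    ∃ w s, w < s ∧ s < y ∧ h y ≤ g s ∧ 2 * R ≤ L + V w - g w := by
  have ha : 0 < 1 - α := by linarith
  have hb : 0 < 1 + α := by linarith
  have hp := H.P.hp
  have hq := H.P.hq
  have hQp := Q.hp
  have hQq := Q.hq
  have hr := H.P.hr
  have hr' := Q.hr
  have har' : 0 < α * r' := by positivity
  have hyL := H.hyL
  have hgF : g y < F := by linarith [H.P.hn]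
  have hfl : ∀ z, yL < z → z < y2 → g z < F := by
    intro z z1 z2
    rcases lt_trichotomy z y with hz | hz | hz
    · exact H.flL z z1 hz
    · rw [hz]; exact hgF
    · exact (Q.fl z hz z2).trans_le hFF
  obtain ⟨l1, -, -⟩ := float_len hD h0 h1 hr H.P.hP (by linarith : α * r < y2 - c)
    (by linarith : α * r < c - yL) (by linarith [Q.hn]) H.hL hfl
  obtain ⟨-, l2, l3⟩ := float_len hD h0 h1 Q.hr Q.hP Q.hp Q.hq Q.hn Q.hm Q.fl
  -- the left peak of Q
  obtain ⟨δ, d0, d1, d2, d3⟩ := peakL hD h0 h1 Q.hP Q.hp l2 Q.hn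
  have hlt : c' - r' < c' - r' + 2 * δ := by linarith
  have h3 : F' * (c' - r' + 2 * δ - (c' - r')) ≤ ∫ s in (c' - r')..(c' - r' + 2 * δ), g s := by
    have : c' - r' + 2 * δ - (c' - r') = 2 * δ := by ring
    rw [this]; exact d3.le
  obtain ⟨s, s1, s2, s3⟩ := ex_hi hD.int hlt h3
  have hsy : s < y := by
    rcases lt_trichotomy s y with hz | hz | hz
    · exact hz
    · rw [hz] at s3; linarith [Q.hm]
    · have := Q.fl s hz (by linarith)
      linarith
  set o := c + ((1 - α) * r - 2 * (c - y0)) / (1 + α) with ho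
  have o2 : (o - c) * (1 + α) = (1 - α) * r - 2 * (c - y0) := by rw [ho]; field_simp; ring
  have ho1 : o < c + α * r := right_lt h0 hK H.P o2.le
  rcases le_or_gt o (c' - r') with hle | hgt
  · -- standard cut
    have hlo : l < o := geo1 h0 h1 hK H.P H.hyL (by linarith) H.geo o2
    have rc := rc_std hD h0 h1 H.P o2
    obtain ⟨w, w1, w2, w3⟩ := low hD H.P H.lc rc hlo
    exact ⟨w, s, by linarith, hsy, by linarith [Q.hm], H.key w w1 (by linarith) w3⟩
  · have hbad : (c' - r' - c) * (1 + α) < (1 - α) * r - 2 * (c - y0) := by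
      rw [← o2]; exact mul_lt_mul_of_pos_right (by linarith) hb
    obtain ⟨e', rc⟩ := rc_nbr hD h0 h1 hK H.P Q hFF hgF hbad
    have hu : 2 * α * (y - (c' - r')) < (1 - α) * (y2 - y) := by
      have e1 : y - (c' - r') < (1 - α) * r' := by linarith
      have e2 : 2 * α * (y - (c' - r')) < 2 * α * ((1 - α) * r') :=
        mul_lt_mul_of_pos_left e1 (by positivity)
      have e3 : (1 - α) * (2 * α * r') < (1 - α) * (y2 - y) := by
        apply mul_lt_mul_of_pos_left _ ha; linarith
      linarith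
    have hlu : l < c' - r' := geo2 h0 h1 hK H.P H.hyL l1 H.geo hu
    obtain ⟨w, w1, w2, w3⟩ := low hD H.P H.lc rc hlu
    exact ⟨w, s, by linarith, hsy, by linarith [Q.hm], H.key w w1 (by linarith) w3⟩

end

section core

variable {α : ℝ} {g h V : ℝ → ℝ} {L C : ℝ}

/-- start a floating hump with the standard left cut -/
lemma St.mk_std (hD : Dat α g h) (h0 : 0 < α) (h1 : α < 1) (hK : 1 ≤ α ^ 2 + 4 * α)
    {y y' R c' r' F' : ℝ} (Q : Fl α g h y y' c' r' F')
    (key : ∀ w, y < w → w < y' → g w ≤ h y + h y' - F' → 2 * R ≤ L + V w - g w) :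
    St α g h V L y' R := by
  have hb : 0 < 1 + α := by linarith
  set o := c' + (2 * (y' - c') - (1 - α) * r') / (1 + α) with ho
  have o2 : (o - c') * (1 + α) = 2 * (y' - c') - (1 - α) * r' := by rw [ho]; field_simp; ring
  have ho1 : c' - α * r' < o := left_gt h0 hK Q o2.ge
  have hq := Q.hq
  right
  exact ⟨y, y, c', r', F', o, 0, Q, le_refl _, Q.hm, Q.fl, by linarith, Or.inl o2.le,
    lc_std hD h0 h1 Q o2, fun w w1 w2 w3 => key w (by linarith) w2 w3⟩

lemma St.next (hD : Dat α g h) (h0 : 0 < α) (h1 : α < 1)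
    (hK : 1 ≤ α ^ 2 + 4 * α) (hV : ∀ z z', z ≤ z' → |g z' - g z| ≤ V z' - V z)
    {y R : ℝ} (H : St α g h V L y R) {c' r' F' x' y' : ℝ} (hr' : 0 < r')
    (hP' : ∫ s in (c' - r')..(c' + r'), g s = 2 * r' * F') (hx' : |x' - c'| ≤ α * r')
    (hyx : y < x') (hxy : x' < y') (hy : h y < F') (hy' : h y' < F') :
    St α g h V L y' (R + F' - h y') := by
  have ha : 0 < 1 - α := by linarith
  have hb : 0 < 1 + α := by linarith
  have b1 := out_right hD hr' hP' hx' hxy hy'
  have b2 := out_left hD hr' hP' hx' hyx hy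
  by_cases hfl : ∀ z, y < z → z < y' → g z < F'
  · -- floating
    have Q : Fl α g h y y' c' r' F' := ⟨hr', hP', b1, b2, hy, hy', hfl⟩
    rcases H with ⟨z, hz, hR⟩ | ⟨y0, yL, c, r, F, l, e, H⟩
    · apply St.mk_std hD h0 h1 hK Q
      intro w w1 w2 w3
      have := (abs_le.1 (hV z w (by linarith))).1
      linarith
    · -- a good point `s` at or left of `y`
      have hgood : (∃ w s, w < s ∧ s ≤ y ∧ h y ≤ g s ∧ 2 * R ≤ L + V w - g w) →
          St α g h V L y' (R + F' - h y') := by
        rintro ⟨w0, s, s1, s2, s3, s4⟩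
        apply St.mk_std hD h0 h1 hK Q
        intro w w1 w2 w3
        have t1 := (abs_le.1 (hV w0 s s1.le)).2
        have t2 := (abs_le.1 (hV s w (by linarith))).1
        linarith
      rcases le_or_gt (h y) (g y) with hgy | hgy
      · obtain ⟨w, w1, w2⟩ := H.close hD h0 h1 hK
        exact hgood ⟨w, y, w1, le_refl _, hgy, w2⟩
      · rcases le_or_gt F' F with hFF | hFF
        · obtain ⟨w, s, s1, s2, s3, s4⟩ := H.pair hD h0 h1 hK Q hFF hgy
          exact hgood ⟨w, s, s1, s2.le, s3, s4⟩
        · -- the new hump is higher: right peak of P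
          obtain ⟨w0, w01, w02⟩ := H.close hD h0 h1 hK
          have hp := H.P.hp
          have hq := H.P.hq
          have hr := H.P.hr
          obtain ⟨-, l2, l3⟩ := float_len hD h0 h1 H.P.hr H.P.hP H.P.hp H.P.hq H.P.hn H.P.hm
            H.P.fl
          obtain ⟨δ, d0, d1, d2, d3⟩ := peakR hD h0 h1 H.P.hP H.P.hq l3 H.P.hm
          have hlt : c + r - 2 * δ < c + r := by linarith
          have h3 : F * (c + r - (c + r - 2 * δ)) ≤ ∫ s in (c + r - 2 * δ)..(c + r), g s := by
            have : c + r - (c + r - 2 * δ) = 2 * δ := by ring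
            rw [this]; exact d3.le
          obtain ⟨s, s1, s2, s3⟩ := ex_hi hD.int hlt h3
          have hsy : y < s := by
            rcases lt_trichotomy s y with hz | hz | hz
            · have := H.P.fl s (by linarith) hz
              linarith
            · rw [hz] at s3; linarith [H.P.hn]
            · exact hz
          have hkey : ∀ w, c + r ≤ w → w < y' → g w ≤ h y + h y' - F' →
              2 * (R + F' - h y') ≤ L + V w - g w := by
            intro w w1 w2 w3
            have t1 := (abs_le.1 (hV w0 s (by linarith))).2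
            have t2 := (abs_le.1 (hV s w (by linarith))).1
            have := H.P.hn
            linarith
          set o := c' + (2 * (y' - c') - (1 - α) * r') / (1 + α) with ho
          have o2 : (o - c') * (1 + α) = 2 * (y' - c') - (1 - α) * r' := by
            rw [ho]; field_simp; ring
          have ho1 : c' - α * r' < o := left_gt h0 hK Q o2.ge
          have hflL : ∀ z, y0 < z → z < y' → g z < F' := by
            intro z z1 z2
            rcases lt_trichotomy z y with hz | hz | hz
            · exact (H.P.fl z z1 hz).trans hFF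
            · rw [hz]; linarith
            · exact hfl z hz z2
          have hyy0 : y0 ≤ y := by
            have : 0 < α * r := by positivity
            linarith
          right
          rcases le_or_gt (c + r) o with hle | hgt
          · refine ⟨y, y0, c', r', F', o, 0, Q, hyy0, by linarith [H.P.hm], hflL, by linarith,
              Or.inl o2.le, lc_std hD h0 h1 Q o2, fun w w1 w2 w3 => hkey w (by linarith) w2 w3⟩
          · have hbad : 2 * (y' - c') - (1 - α) * r' < (c + r - c') * (1 + α) := by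
              rw [← o2]; exact mul_lt_mul_of_pos_right (by linarith) hb
            obtain ⟨e', lc⟩ := lc_nbr hD h0 h1 hK H.P Q hFF.le (by linarith) hbad
            refine ⟨y, y0, c', r', F', c + r, e', Q, hyy0, by linarith [H.P.hm], hflL,
              by linarith, Or.inr ?_, lc, fun w w1 w2 w3 => hkey w w1.le w2 w3⟩
            have e1 : c + r - y < (1 - α) * r := by linarith
            have e2 : 2 * α * (c + r - y) < 2 * α * ((1 - α) * r) :=
              mul_lt_mul_of_pos_left e1 (by positivity)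
            have e3 : (1 - α) * (2 * α * r) < (1 - α) * (y - y0) := by
              apply mul_lt_mul_of_pos_left _ ha; linarith
            linarith
  · -- attached
    push Not at hfl
    obtain ⟨z', z1, z2, z3⟩ := hfl
    left
    refine ⟨z', z2, ?_⟩
    rcases H with ⟨z, hz, hR⟩ | ⟨y0, yL, c, r, F, l, e, H⟩
    · -- small interval around y
      set t := min (y - z) (z' - y) / 2 with ht
      have ht0 : 0 < min (y - z) (z' - y) := lt_min (by linarith) (by linarith)
      have ht1 : min (y - z) (z' - y) ≤ y - z := min_le_left _ _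
      have ht2 : min (y - z) (z' - y) ≤ z' - y := min_le_right _ _
      have ht' : 0 < t := by linarith
      have k := hD.bd y y t ht' (by simp; positivity)
      obtain ⟨v, v1, v2, v3⟩ := ex_lo (F := h y) hD.int (by linarith : y - t < y + t)
        (by linarith)
      have q1 := (abs_le.1 (hV z v (by linarith))).1
      have q2 := (abs_le.1 (hV v z' (by linarith))).2
      linarith
    · obtain ⟨w, hw, hR⟩ := H.close hD h0 h1 hK
      have q2 := (abs_le.1 (hV w z' (by linarith))).2
      linarith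

lemma St.fin (hD : Dat α g h) (h0 : 0 < α) (h1 : α < 1) (hK : 1 ≤ α ^ 2 + 4 * α)
    (hV : ∀ z z', z ≤ z' → |g z' - g z| ≤ V z' - V z) (hC : ∀ z, L + V z + g z ≤ C)
    {y R : ℝ} (H : St α g h V L y R) {c' r' F' x' : ℝ} (hr' : 0 < r')
    (hP' : ∫ s in (c' - r')..(c' + r'), g s = 2 * r' * F') (hx' : |x' - c'| ≤ α * r')
    (hyx : y < x') (hy : h y < F') : 2 * (R + F') ≤ C := by
  obtain ⟨z', z1, z3⟩ := oneL hD h0 h1 hr' hP' hx' hyx hy
  refine le_trans ?_ (hC z')
  rcases H with ⟨z, hz, hR⟩ | ⟨y0, yL, c, r, F, l, e, H⟩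
  · -- small interval around y
    set t := min (y - z) (z' - y) / 2 with ht
    have ht0 : 0 < min (y - z) (z' - y) := lt_min (by linarith) (by linarith)
    have ht1 : min (y - z) (z' - y) ≤ y - z := min_le_left _ _
    have ht2 : min (y - z) (z' - y) ≤ z' - y := min_le_right _ _
    have ht' : 0 < t := by linarith
    have k := hD.bd y y t ht' (by simp; positivity)
    obtain ⟨v, v1, v2, v3⟩ := ex_lo (F := h y) hD.int (by linarith : y - t < y + t)
      (by linarith)
    have q1 := (abs_le.1 (hV z v (by linarith))).1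
    have q2 := (abs_le.1 (hV v z' (by linarith))).2
    linarith
  · obtain ⟨w, hw, hR⟩ := H.close hD h0 h1 hK
    have q2 := (abs_le.1 (hV w z' (by linarith))).2
    linarith

theorem core' (hD : Dat α g h) (h0 : 0 < α) (h1 : α < 1) (hK : 1 ≤ α ^ 2 + 4 * α)
    (hsup : ∀ x ε : ℝ, 0 < ε → ∃ c r, 0 < r ∧ |x - c| ≤ α * r ∧
      2 * r * (h x - ε) < ∫ s in (c - r)..(c + r), g s)
    (hV : ∀ z z', z ≤ z' → |g z' - g z| ≤ V z' - V z) (hL : ∀ z, g z ≤ L + V z)
    (hC : ∀ z, L + V z + g z ≤ C) {x S : ℝ} (hA : Alt h x S) : 2 * S ≤ C := by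
  have hsup' : ∀ x ε : ℝ, 0 < ε → ∃ c r F, 0 < r ∧ |x - c| ≤ α * r ∧
      (∫ s in (c - r)..(c + r), g s = 2 * r * F) ∧ h x - ε < F := by
    intro x ε hε
    obtain ⟨c, r, hr, hx, hlt⟩ := hsup x ε hε
    have h2r : 0 < 2 * r := by linarith
    refine ⟨c, r, (∫ s in (c - r)..(c + r), g s) / (2 * r), hr, hx, ?_, ?_⟩
    · field_simp
    · rw [lt_div_iff₀ h2r]; linarith
  have key : (∀ ε > 0, ∀ y, x < y → h y < h x → ∃ R, S - h y - ε ≤ R ∧ St α g h V L y R) ∧
      (∀ ε > 0, 2 * (S - ε) ≤ C) := by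
    induction hA with
    | single x =>
      constructor
      · intro ε hε y hxy hy
        obtain ⟨c, r, F, hr, hx, hP, hF⟩ := hsup' x (min ε (h x - h y)) (lt_min hε (by linarith))
        have m1 : min ε (h x - h y) ≤ ε := min_le_left _ _
        have m2 : min ε (h x - h y) ≤ h x - h y := min_le_right _ _
        obtain ⟨z, z1, z2⟩ := oneR hD h0 h1 hr hP hx hxy (by linarith)
        refine ⟨F - h y, by linarith, Or.inl ⟨z, z1, ?_⟩⟩
        have := hL z
        linarith
      · intro ε hε
        obtain ⟨c, r, F, hr, hx, hP, hF⟩ := hsup' x ε hε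
        obtain ⟨z, z2⟩ := noVal hD hr hP
        have := hL z
        have := hC z
        linarith
    | step x S y x' H hxy hyx' hy hy' ih =>
      obtain ⟨ih1, -⟩ := ih
      constructor
      · intro ε hε y' hxy' hyy'
        obtain ⟨R, hR, hS⟩ := ih1 (ε / 2) (by linarith) y hxy hy
        obtain ⟨c, r, F, hr, hx, hP, hF⟩ := hsup' x' (min (ε / 2) (min (h x' - h y) (h x' - h y')))
          (lt_min (by linarith) (lt_min (by linarith) (by linarith)))
        have m1 : min (ε / 2) (min (h x' - h y) (h x' - h y')) ≤ ε / 2 := min_le_left _ _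
        have m2 : min (ε / 2) (min (h x' - h y) (h x' - h y')) ≤ h x' - h y :=
          (min_le_right _ _).trans (min_le_left _ _)
        have m3 : min (ε / 2) (min (h x' - h y) (h x' - h y')) ≤ h x' - h y' :=
          (min_le_right _ _).trans (min_le_right _ _)
        refine ⟨R + F - h y', by linarith, ?_⟩
        exact hS.next hD h0 h1 hK hV hr hP hx hyx' hxy' (by linarith) (by linarith)
      · intro ε hε
        obtain ⟨R, hR, hS⟩ := ih1 (ε / 2) (by linarith) y hxy hy
        obtain ⟨c, r, F, hr, hx, hP, hF⟩ := hsup' x' (min (ε / 2) (h x' - h y))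
          (lt_min (by linarith) (by linarith))
        have m1 : min (ε / 2) (h x' - h y) ≤ ε / 2 := min_le_left _ _
        have m2 : min (ε / 2) (h x' - h y) ≤ h x' - h y := min_le_right _ _
        have := hS.fin hD h0 h1 hK hV hC hr hP hx hyx' (by linarith)
        linarith
  by_contra hcon
  push Not at hcon
  have := key.2 ((2 * S - C) / 4) (by linarith)
  linarith

end core

end Pool.Agent.Helper34.Nt
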