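import Pool.Agent.Helper34.Nt.Main
import Pool.Agent.Helper34.Nt.Gold

set_option autoImplicit false
open MeasureTheory Set Filter Topology

namespace Pool.Agent.Helper34.Nt

/-- the core inequality implies the theorem on the variation -/
theorem main_of {α : ℝ} (h0 : 0 ≤ α)
    (H : ∀ (g h V : ℝ → ℝ) (L C : ℝ), Dat α g h → (∀ x, 0 ≤ g x) →
      (∀ x ε : ℝ, 0 < ε → ∃ c r, 0 < r ∧ |x - c| ≤ α * r ∧
        2 * r * (h x - ε) < ∫ s in (c - r)..(c + r), g s) →
      (∀ z z', z ≤ z' → |g z' - g z| ≤ V z' - V z) → (∀ z, g z ≤ L + V z) →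
      (∀ z, L + V z + g z ≤ C) → ∀ x S : ℝ, Alt h x S → 2 * S ≤ C)
    (f : ℝ → ℝ) (hf : BoundedVariationOn f univ) :
    eVariationOn (MF α f) univ ≤ eVariationOn f univ := by
  set g : ℝ → ℝ := fun x => |f x| with hgdef
  have hgf : eVariationOn g univ ≤ eVariationOn f univ := abs_var f
  have hg : BoundedVariationOn g univ := ne_top_of_le_ne_top hf hgf
  have hint := bv_int hg
  set W : ℝ := (eVariationOn g univ).toReal with hW
  have hg0 : ∀ x, 0 ≤ g x := fun x => abs_nonneg _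
  -- upper bound
  have hB : ∀ x, g x ≤ g 0 + W := by
    intro x
    have := hg.sub_le (mem_univ x) (mem_univ 0)
    linarith
  have hset : ∀ x, MF α f x = sSup {v : ℝ | ∃ y t : ℝ, 0 < t ∧ |x - y| ≤ α * t ∧
      v = (2 * t)⁻¹ * ∫ s in (y - t)..(y + t), g s} := fun x => rfl
  set h : ℝ → ℝ := MF α f with hh
  have hbdd : ∀ x, BddAbove {v : ℝ | ∃ y t : ℝ, 0 < t ∧ |x - y| ≤ α * t ∧
      v = (2 * t)⁻¹ * ∫ s in (y - t)..(y + t), g s} := by
    intro x
    refine ⟨g 0 + W, ?_⟩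
    rintro v ⟨y, t, ht, -, rfl⟩
    have hlt : y - t < y + t := by linarith
    obtain ⟨z, z1, z2, z3⟩ := ex_ge hint hlt
    have h2t : 0 < 2 * t := by linarith
    rw [inv_mul_le_iff₀ h2t]
    have := mul_le_mul_of_nonneg_right (hB z) h2t.le
    calc ∫ s in (y - t)..(y + t), g s ≤ g z * (y + t - (y - t)) := z3
      _ = g z * (2 * t) := by ring
      _ ≤ (g 0 + W) * (2 * t) := this
      _ = 2 * t * (g 0 + W) := by ring
  have hD : Dat α g h := by
    refine ⟨hint, ?_⟩
    intro x c r hr hx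
    have h2r : 0 < 2 * r := by linarith
    have : (2 * r)⁻¹ * ∫ s in (c - r)..(c + r), g s ≤ h x := by
      rw [hset x]
      exact le_csSup (hbdd x) ⟨c, r, hr, hx, rfl⟩
    rw [inv_mul_le_iff₀ h2r] at this
    exact this
  have hsup : ∀ x ε : ℝ, 0 < ε → ∃ c r, 0 < r ∧ |x - c| ≤ α * r ∧
      2 * r * (h x - ε) < ∫ s in (c - r)..(c + r), g s := by
    intro x ε hε
    have hne : {v : ℝ | ∃ y t : ℝ, 0 < t ∧ |x - y| ≤ α * t ∧
      v = (2 * t)⁻¹ * ∫ s in (y - t)..(y + t), g s}.Nonempty :=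
      ⟨_, x, 1, one_pos, by simp [h0], rfl⟩
    have hlt : h x - ε < sSup {v : ℝ | ∃ y t : ℝ, 0 < t ∧ |x - y| ≤ α * t ∧
      v = (2 * t)⁻¹ * ∫ s in (y - t)..(y + t), g s} := by
      rw [← hset x]; linarith
    obtain ⟨v, ⟨c, r, hr, hx, rfl⟩, hv⟩ := exists_lt_of_lt_csSup hne hlt
    refine ⟨c, r, hr, hx, ?_⟩
    have h2r : 0 < 2 * r := by linarith
    rwa [lt_inv_mul_iff₀ h2r] at hv
  -- limits
  obtain ⟨L1, hL1⟩ : ∃ l, Tendsto g atBot (𝓝 l) := by
    simpa using hg.exists_tendsto_atBot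
  obtain ⟨L2, hL2⟩ : ∃ l, Tendsto g atTop (𝓝 l) := by
    simpa using hg.exists_tendsto_atTop
  have hL : ∀ z, g z ≤ L1 + VV g z := by
    intro z
    have hev : ∀ᶠ u in atBot, g z - VV g z ≤ g u := by
      filter_upwards [eventually_le_atBot z] with u hu
      have k1 := (abs_le.1 (VV_step hg u z hu)).2
      have k2 := VV_nonneg g u
      linarith
    have := ge_of_tendsto hL1 hev
    linarith
  have hC : ∀ z, L1 + VV g z + g z ≤ L1 + L2 + W := by
    intro z
    have hev : ∀ᶠ u in atTop, g z + VV g z - W ≤ g u := by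
      filter_upwards [eventually_ge_atTop z] with u hu
      have k1 := VV_total hg z u hu
      have k2 := (abs_le.1 (le_refl |g u - g z|)).1
      linarith
    have := ge_of_tendsto hL2 hev
    linarith
  -- behaviour of h near the ends
  have hendL : ∀ N ε : ℝ, 0 < ε → ∃ a, a ≤ N ∧ L1 - ε ≤ h a := by
    intro N ε hε
    have hev : ∀ᶠ u in atBot, L1 - ε < g u := hL1.eventually (lt_mem_nhds (by linarith))
    obtain ⟨M, hM⟩ := eventually_atBot.1 hev
    refine ⟨min N M - 1, by linarith [min_le_left N M], ?_⟩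
    set a := min N M - 1 with ha
    have hlt : a - 1 < a + 1 := by linarith
    obtain ⟨z, z1, z2, z3⟩ := ex_le hint hlt
    have hz : z ≤ M := by
      have := min_le_right N M
      linarith
    have k1 := hM z hz
    have k2 := hD.bd a a 1 one_pos (by simp [h0])
    nlinarith
  have hendR : ∀ N ε : ℝ, 0 < ε → ∃ b, N ≤ b ∧ L2 - ε ≤ h b := by
    intro N ε hε
    have hev : ∀ᶠ u in atTop, L2 - ε < g u := hL2.eventually (lt_mem_nhds (by linarith))
    obtain ⟨M, hM⟩ := eventually_atTop.1 hev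
    refine ⟨max N M + 1, by linarith [le_max_left N M], ?_⟩
    set b := max N M + 1 with hb
    have hlt : b - 1 < b + 1 := by linarith
    obtain ⟨z, z1, z2, z3⟩ := ex_le hint hlt
    have hz : M ≤ z := by
      have := le_max_right N M
      linarith
    have k1 := hM z hz
    have k2 := hD.bd b b 1 one_pos (by simp [h0])
    nlinarith
  -- the sum bound
  have hsum : ∀ (n : ℕ) (u : ℕ → ℝ), Monotone u →
      ∑ i ∈ Finset.range n, |h (u (i + 1)) - h (u i)| ≤ W := by
    intro n u hu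
    by_contra hcon
    push Not at hcon
    set ε := (∑ i ∈ Finset.range n, |h (u (i + 1)) - h (u i)| - W) / 4 with hε
    have hε0 : 0 < ε := by linarith
    obtain ⟨a, ha, ha'⟩ := hendL (u 0) ε hε0
    obtain ⟨b, hb, hb'⟩ := hendR (u n) ε hε0
    obtain ⟨x, S, hA, -, -, hT⟩ := (Inv.run (h := h) hu ha n).step hb
    have k := H g h (VV g) L1 (L1 + L2 + W) hD hg0 hsup (VV_step hg) hL hC x S hA
    have k1 := abs_nonneg (h (u 0) - h a)
    have k2 := abs_nonneg (h b - h (u n))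
    linarith
  refine le_trans ?_ hgf
  refine iSup_le fun ⟨n, ⟨u, hu, ust⟩⟩ => ?_
  have e1 : ∑ i ∈ Finset.range n, edist (h (u (i + 1))) (h (u i)) =
      ENNReal.ofReal (∑ i ∈ Finset.range n, |h (u (i + 1)) - h (u i)|) := by
    rw [ENNReal.ofReal_sum_of_nonneg (fun i _ => abs_nonneg _)]
    refine Finset.sum_congr rfl fun i _ => ?_
    rw [edist_dist, Real.dist_eq]
  show ∑ i ∈ Finset.range n, edist (h (u (i + 1))) (h (u i)) ≤ _
  rw [e1]
  have hWt : ENNReal.ofReal W = eVariationOn g univ := ENNReal.ofReal_toReal hg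
  rw [← hWt]
  exact ENNReal.ofReal_le_ofReal (hsum n u hu)

theorem main_gold {α : ℝ} (h0 : 0 < α) (h1 : α < 1) (hK : 1 ≤ α ^ 2 + 4 * α)
    (f : ℝ → ℝ) (hf : BoundedVariationOn f univ) :
    eVariationOn (MF α f) univ ≤ eVariationOn f univ :=
  main_of h0.le (fun _ _ _ _ _ hD _ hsup hV hL hC _ _ hA =>
    core' hD h0 h1 hK hsup hV hL hC hA) f hf

end Pool.Agent.Helper34.Nt
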